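import Pool.Agent.Helper13.CM.Core
import Pool.Agent.Helper13.CM.Trace
import Pool.Agent.Helper13.CM.Eis3
import Pool.Agent.Helper13.CM.Gau
import Pool.Graph.R_pool_sql_team_seeded_63374d34.N784.HC.Exi
import Pool.Graph.R_seed8.W164.RC.Bad

/-!
# The zeros of `L(E/K, s)` for all elliptic curves with complex multiplication

`M` is ANY number field, of any degree, and `E : y² = x³ + A x + B` is an elliptic curve over `M` with
complex multiplication by an imaginary quadratic field contained in `M`, in the form of Deuring's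
theorem: the traces of Frobenius of `E` are `ψ(𝔭) + conj ψ(𝔭)` for a Hecke character `ψ` of `M`.  For
every one of the (thirteen) `j`-invariants of the elliptic curves over `ℚ` with complex multiplication
this holds over every number field `M` which contains the CM field.  `K` is a narrow ray class field of
`M` whose modulus `𝔮` is divisible by the modulus of `ψ`.

We prove: if the units of `M` occupy at most `N(𝔮)^δ` of the residue classes modulo `𝔮`, then
`L(E/K, s)` is entire up to finitely many Euler factors and at least 67.25 per cent of its zeros with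
`T < Im s ≤ 2T` are on the line `Re s = 1`, for `N(𝔮)^η ≤ T` and `(N(𝔮) T^d)^(1 - a) ≤ N(𝔮)`, where
`d = [M : ℚ]`, `η > 0` is arbitrary and `a > 0` is an absolute constant; their number is at least
`(1 - ε) [K : M] (T / π) log(N(𝔮) T^d)`.  `E` may be replaced by any curve over `K` which is
isomorphic to it over `K`.

For `j = 0` (`y² = x³ + 16`, and all `y² = x³ + D` with `4 D` a sixth power in `K`) over every number
field containing a primitive cube root of unity, and for `j = 1728` (`y² = x³ - x`) over every number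
field containing `i`, the Hecke character is constructed, so that nothing is assumed in these cases.
For `j = 1728` this is in the library (`MP_fb225e_nt.EveryNumberField6725`); everything else is new.

Proof.  (1) The number of points of an elliptic curve over the extensions of a finite field of odd
characteristic, and the law of decomposition in `K/M` from the Artin map: the Euler factors of
`L(E/K, s)` at the places above a prime of `M` prime to `𝔮` are those of all Hecke L-functions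
`L(s - 1/2, ψ χ)` and their conjugates, `χ` the characters of the ray class group modulo `𝔮`
(`Pool.Agent.Helper13.CM.Glue`, `Trace`).  (2) The library's theorem on the zeros of all Hecke
characters of a given infinity type of an arbitrary number field.  (3) For `j = 0`: the character
`ψ(𝔞)` is the generator congruent to one modulo `3` of the norm of `𝔞` to `ℤ[ω]`; the number of points
over `ℤ[ω]/(z)` is a Jacobi sum of a cubic residue character, which is `-z` by its divisibility by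
`z`, its absolute value and its residue modulo `3` (`Pool.Agent.Helper13.CM.Eis1`, `Eis2`, `Eis3`).
-/

set_option autoImplicit false

open Complex NumberField IsDedekindDomain

namespace Pool.Agent.Results.MP_fb225e_nt.ComplexMultiplication6725

/-- `K` is the (narrow) ray class field of `M` of modulus `𝔮`: `ι` embeds the ring of integers of `M`
into that of `K`, and `art` is the Artin map (used only for the ideals prime to `𝔮`), with values in
the automorphisms of the ring of integers of `K` (equivalently, of `K`), such that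
* `art` is multiplicative,
* the integers of `M` are the invariants (so `K/M` is Galois and `art` is surjective onto its group),
* the kernel consists of the ideals `𝔞` with `(a) 𝔞 = (b)` for some totally positive
  `a, b ≡ 1 mod 𝔮` (so the Galois group is the narrow ray class group modulo `𝔮`),
* `K/M` is unramified outside `𝔮`: the inertia group at every prime `v` of `K` not dividing `𝔮` is
  trivial,
* for every prime ideal `𝔭` not dividing `𝔮`, `art 𝔭` is the Frobenius automorphism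
  `x ↦ x ^ N(𝔭)` at all primes `v` of `K` above `𝔭`. -/
structure IsRayClassField {M : Type} [Field M] [NumberField M] (𝔮 : Ideal (𝓞 M)) (K : Type)
    [Field K] [NumberField K] (ι : 𝓞 M →+* 𝓞 K) (art : Ideal (𝓞 M) → (𝓞 K ≃+* 𝓞 K)) : Prop where
  mul : ∀ 𝔞 𝔟 : Ideal (𝓞 M), IsCoprime 𝔞 𝔮 → IsCoprime 𝔟 𝔮 → art (𝔞 * 𝔟) = art 𝔞 * art 𝔟
  invariants : ∀ x : 𝓞 K, (∀ 𝔞 : Ideal (𝓞 M), IsCoprime 𝔞 𝔮 → art 𝔞 x = x) ↔ x ∈ ι.range
  kernel : ∀ 𝔞 : Ideal (𝓞 M), IsCoprime 𝔞 𝔮 → (art 𝔞 = 1 ↔ ∃ a b : 𝓞 M, a - 1 ∈ 𝔮 ∧ b - 1 ∈ 𝔮 ∧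
    (∀ τ : M →+* ℝ, 0 < τ a) ∧ (∀ τ : M →+* ℝ, 0 < τ b) ∧ Ideal.span {a} * 𝔞 = Ideal.span {b})
  unramified : ∀ v : HeightOneSpectrum (𝓞 K), ¬ 𝔮.map ι ≤ v.asIdeal →
    ∀ 𝔞 : Ideal (𝓞 M), IsCoprime 𝔞 𝔮 → (∀ x, art 𝔞 x - x ∈ v.asIdeal) → art 𝔞 = 1
  frobenius : ∀ 𝔭 : Ideal (𝓞 M), 𝔭.IsPrime → IsCoprime 𝔭 𝔮 → ∀ v : HeightOneSpectrum (𝓞 K),
    𝔭.map ι ≤ v.asIdeal → ∀ x : 𝓞 K, art 𝔭 x - x ^ Ideal.absNorm 𝔭 ∈ v.asIdeal

/-- The trace of Frobenius at the prime ideal `𝔭` of `R` of the curve `y² = x³ + A x + B` over `R`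
(if it has good reduction there): `N(𝔭)` minus the number of its affine points over `R / 𝔭`. -/
noncomputable def frobeniusTrace {F : Type} [Field F] [NumberField F] (𝔭 : Ideal (𝓞 F))
    (A B : 𝓞 F) : ℤ :=
  (Ideal.absNorm 𝔭 : ℤ) - (Nat.card {p : (𝓞 F ⧸ 𝔭) × (𝓞 F ⧸ 𝔭) //
    p.2 ^ 2 = p.1 ^ 3 + Ideal.Quotient.mk 𝔭 A * p.1 + Ideal.Quotient.mk 𝔭 B} : ℤ)

/-- `ψ` is a Hecke character of `M` modulo `𝔣` and the curve `E : y² = x³ + A x + B` over `M` belongs
to it:
* `Φ` is a CM type of `M`: it contains exactly one of any two complex conjugate embeddings (so `M` has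
  no real embeddings),
* `ψ` is multiplicative on the ideals prime to `𝔣`,
* its values on the principal ideals generated by `x ≡ 1 mod 𝔣` are the products of the `φ(x)`,
  `φ ∈ Φ` (`ψ` is a Hecke character modulo `𝔣` of infinity type `Φ`),
* for every prime ideal `𝔭` which does not divide `𝔣` and `2 (4 A³ + 27 B²)`, the trace of Frobenius
  of `E` at `𝔭` is `ψ(𝔭)` plus its complex conjugate.
By a theorem of Deuring there is such a character for every elliptic curve with complex multiplication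
by an imaginary quadratic field contained in `M`. -/
structure IsHeckeCharacterOf {M : Type} [Field M] [NumberField M] (A B : 𝓞 M) (𝔣 : Ideal (𝓞 M))
    (Φ : Finset (M →+* ℂ)) (ψ : Ideal (𝓞 M) → ℂ) : Prop where
  type : ∀ φ : M →+* ℂ, φ ∈ Φ ↔ (starRingEnd ℂ).comp φ ∉ Φ
  mul : ∀ 𝔞 𝔟 : Ideal (𝓞 M), IsCoprime 𝔞 𝔣 → IsCoprime 𝔟 𝔣 → ψ (𝔞 * 𝔟) = ψ 𝔞 * ψ 𝔟
  ray : ∀ x : 𝓞 M, x - 1 ∈ 𝔣 → ψ (Ideal.span {x}) = ∏ φ ∈ Φ, φ (x : M)
  trace : ∀ 𝔭 : Ideal (𝓞 M), 𝔭.IsPrime → 𝔭 ≠ ⊥ → IsCoprime 𝔭 𝔣 →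
    2 * (4 * A ^ 3 + 27 * B ^ 2) ∉ 𝔭 →
    (frobeniusTrace 𝔭 A B : ℂ) = ψ 𝔭 + (starRingEnd ℂ) (ψ 𝔭)

/-- `1 - a n^(-s) + ε n^(1-2s)` -/
noncomputable def localPoly (a ε : ℤ) (n : ℕ) (s : ℂ) : ℂ :=
  1 - (a : ℂ) * (n : ℂ) ^ (-s) + (ε : ℂ) * (n : ℂ) ^ (1 - 2 * s)

/-- the `(a, ε)` which are possible for the Euler factor `(1 - a n^(-s) + ε n^(1-2s))⁻¹` of an
elliptic curve at a place with `n` residue classes: `ε = 1` and `a² ≤ 4 n` (good reduction, Hasse) or
`ε = 0` and `a ∈ {-1, 0, 1}` (bad reduction) -/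
def Possible (n : ℕ) (a ε : ℤ) : Prop := (ε = 1 ∧ a ^ 2 ≤ 4 * (n : ℤ)) ∨ (ε = 0 ∧ a ^ 2 ≤ 1)

section

variable {M : Type} [Field M] [NumberField M] {K : Type} [Field K] [NumberField K]

open Classical in
/-- The Euler factor at `v` of `y² = x³ + A x + B` over `K`.  If `v` is not in the finite set `S` it is
`(1 - a_v (Nv)^(-s) + (Nv)^(1-2s))⁻¹`, where `a_v` is the trace of Frobenius; for the places in `S` it
is the factor given by `(α v, β v)`. -/
noncomputable def factor (S : Finset (HeightOneSpectrum (𝓞 K))) (A B : 𝓞 K)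
    (α β : HeightOneSpectrum (𝓞 K) → ℤ) (s : ℂ) (v : HeightOneSpectrum (𝓞 K)) : ℂ :=
  if v ∈ S then (localPoly (α v) (β v) (Ideal.absNorm v.asIdeal) s)⁻¹
  else (localPoly (frobeniusTrace v.asIdeal A B) 1 (Ideal.absNorm v.asIdeal) s)⁻¹

/-- the number of residue classes modulo `𝔮` which contain a unit of `M` -/
noncomputable def unitClasses (𝔮 : Ideal (𝓞 M)) : ℕ :=
  (Set.range (fun u : (𝓞 M)ˣ => Ideal.Quotient.mk 𝔮 (u : 𝓞 M))).ncard

end

/-- The zeros of `F` with `Re s > 1/2` and `T < Im s ≤ 2T`. -/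
def zeros (F : ℂ → ℂ) (T : ℝ) : Set ℂ :=
  {s : ℂ | 1 / 2 < s.re ∧ T < s.im ∧ s.im ≤ 2 * T ∧ F s = 0}

/-- The number of these zeros, counted with multiplicity. -/
noncomputable def N (F : ℂ → ℂ) (T : ℝ) : ℕ := ∑ᶠ s ∈ zeros F T, analyticOrderNatAt F s

/-- The number of those of them that lie on the line `Re s = 1`, counted with multiplicity. -/
noncomputable def N₀ (F : ℂ → ℂ) (T : ℝ) : ℕ :=
  ∑ᶠ s ∈ {s : ℂ | s ∈ zeros F T ∧ s.re = 1}, analyticOrderNatAt F s

/-- `L` is the L-function of `y² = x³ + A x + B` over `K`, with the Euler factors given by `α`, `β` at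
the places in `S`: it is analytic for `Re s > 1/2`, for `Re s > 3/2` it is the product over all places
of `K` of the Euler factors, and its product with the (finitely many) local polynomials at the places
in `S` is entire -/
structure IsLFunction {K : Type} [Field K] [NumberField K] (S : Finset (HeightOneSpectrum (𝓞 K)))
    (A B : 𝓞 K) (α β : HeightOneSpectrum (𝓞 K) → ℤ) (L : ℂ → ℂ) : Prop where
  analytic : AnalyticOnNhd ℂ L {s : ℂ | 1 / 2 < s.re}
  euler : ∀ s : ℂ, 3 / 2 < s.re → HasProd (factor S A B α β s) (L s)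
  entire : ∃ F : ℂ → ℂ, Differentiable ℂ F ∧ ∀ s : ℂ, 1 / 2 < s.re →
    F s = L s * ∏ v ∈ S, localPoly (α v) (β v) (Ideal.absNorm v.asIdeal) s

/-- For `N(𝔮)^η ≤ T` and `(N(𝔮) T^d)^(1 - a) ≤ N(𝔮)`, `d = [M : ℚ]`, the number of the zeros of `L` with
`Re s > 1/2`, `T < Im s ≤ 2T` (with multiplicity) is finite and at least
`(1 - ε) [K : M] (T / π) log(N(𝔮) T^d)` and at least 67.25% of them lie on the line `Re s = 1`. -/
def ZerosOnLine {M : Type} [Field M] [NumberField M] (𝔮 : Ideal (𝓞 M)) (K : Type) [Field K]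
    [NumberField K] (L : ℂ → ℂ) (a ε η : ℝ) : Prop :=
  ∀ T : ℝ, (Ideal.absNorm 𝔮 : ℝ) ^ η ≤ T →
    ((Ideal.absNorm 𝔮 : ℝ) * T ^ Module.finrank ℚ M) ^ (1 - a) ≤ (Ideal.absNorm 𝔮 : ℝ) →
    (zeros L T).Finite ∧
    (1 - ε) * ((Module.finrank ℚ K : ℝ) / (Module.finrank ℚ M : ℝ) * (T / Real.pi *
      Real.log ((Ideal.absNorm 𝔮 : ℝ) * T ^ Module.finrank ℚ M))) ≤ (N L T : ℝ) ∧
    0.6725 * (N L T : ℝ) ≤ (N₀ L T : ℝ)

section

variable {M : Type} [Field M] [NumberField M]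

/-- `E : y² = x³ + A x + B` belongs to a Hecke character of `M` modulo `𝔣` -/
def HasHeckeCharacter (A B : 𝓞 M) (𝔣 : Ideal (𝓞 M)) : Prop :=
  ∃ (Φ : Finset (M →+* ℂ)) (ψ : Ideal (𝓞 M) → ℂ), IsHeckeCharacterOf A B 𝔣 Φ ψ

variable {K : Type} [Field K] [NumberField K]

/-- `A' = (u / w)⁴ A`, `B' = (u / w)⁶ B`: the curve `y² = x³ + A' x + B'` with integral coefficients
over `K` is isomorphic over `K` to `y² = x³ + A x + B` (every isomorphism is of this kind) -/
def IsIsomorphism (ι : 𝓞 M →+* 𝓞 K) (A B : 𝓞 M) (A' B' u w : 𝓞 K) : Prop :=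
  u ≠ 0 ∧ w ≠ 0 ∧ w ^ 4 * A' = u ^ 4 * ι A ∧ w ^ 6 * B' = u ^ 6 * ι B

/-- The L-function over `K` of every curve which is isomorphic over `K` to `y² = x³ + A x + B`, for
every finite set `S` of places of `K` which contains those dividing `𝔮` or `2 (4 A³ + 27 B²) u w`, and
for every choice of possible Euler factors in `S` (for example the ones of the curve), exists and
satisfies the bounds `ZerosOnLine`. -/
def LFunctions (𝔮 : Ideal (𝓞 M)) (ι : 𝓞 M →+* 𝓞 K) (A B : 𝓞 M) (a ε η : ℝ) : Prop :=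
  ∀ A' B' u w : 𝓞 K, IsIsomorphism ι A B A' B' u w →
  ∀ S : Finset (HeightOneSpectrum (𝓞 K)), (∀ v : HeightOneSpectrum (𝓞 K), 𝔮.map ι ≤ v.asIdeal ∨
    2 * ι (4 * A ^ 3 + 27 * B ^ 2) * (u * w) ∈ v.asIdeal → v ∈ S) →
  ∀ α β : HeightOneSpectrum (𝓞 K) → ℤ, (∀ v ∈ S, Possible (Ideal.absNorm v.asIdeal) (α v) (β v)) →
  ∃ L : ℂ → ℂ, IsLFunction S A' B' α β L ∧ ZerosOnLine 𝔮 K L a ε η

/-- For all `ε, η > 0` there are `δ > 0` and `X₀` such that for every ideal `𝔮 ≠ 0` of `M` which is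
divisible by `𝔣`, has norm at least `X₀` and for which the units of `M` occupy at most `N(𝔮)^δ` residue
classes, `LFunctions` holds for the narrow ray class field `K` of `M` of modulus `𝔮`. -/
def ManyZerosOnLine (A B : 𝓞 M) (𝔣 : Ideal (𝓞 M)) (a : ℝ) : Prop :=
  ∀ ε η : ℝ, 0 < ε → 0 < η → ∃ δ X₀ : ℝ, 0 < δ ∧ ∀ 𝔮 : Ideal (𝓞 M), 𝔮 ≠ ⊥ → 𝔮 ≤ 𝔣 →
    X₀ ≤ (Ideal.absNorm 𝔮 : ℝ) → (unitClasses 𝔮 : ℝ) ≤ (Ideal.absNorm 𝔮 : ℝ) ^ δ →
  ∀ (K : Type) [Field K] [NumberField K] (ι : 𝓞 M →+* 𝓞 K)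
    (art : Ideal (𝓞 M) → (𝓞 K ≃+* 𝓞 K)), IsRayClassField 𝔮 K ι art →
  LFunctions 𝔮 ι A B a ε η

end

/-- **Main theorem.** There is an absolute constant `0 < a < 1` such that `ManyZerosOnLine` holds for
every number field `M` and every elliptic curve `E : y² = x³ + A x + B` over `M` which belongs to a
Hecke character `ψ` of `M` modulo `𝔣`.  For every number field `M` which contains a primitive cube root
of unity this applies to the curve `y² = x³ + 16` with `𝔣 = (3)`, for every number field `M` which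
contains a square root `i` of `-1` it applies to the curve `y² = x³ - x` with `𝔣 = (2 + 2i)`.
The moduli: for all `δ > 0` there are arbitrarily large multiples `𝔮` of every ideal for which the
units occupy at most `N(𝔮)^δ` residue classes. -/
theorem result :
    (∃ a : ℝ, 0 < a ∧ a < 1 ∧
      ∀ (M : Type) [Field M] [NumberField M] (A B : 𝓞 M) (𝔣 : Ideal (𝓞 M)),
        4 * A ^ 3 + 27 * B ^ 2 ≠ 0 → HasHeckeCharacter A B 𝔣 → ManyZerosOnLine A B 𝔣 a) ∧
    (∀ (M : Type) [Field M] [NumberField M] (ω : 𝓞 M), ω ^ 2 + ω + 1 = 0 →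
      HasHeckeCharacter (0 : 𝓞 M) 16 (Ideal.span {3})) ∧
    (∀ (M : Type) [Field M] [NumberField M] (i : 𝓞 M), i ^ 2 + 1 = 0 →
      HasHeckeCharacter (-1 : 𝓞 M) 0 (Ideal.span {2 + 2 * i})) ∧
    ∀ (M : Type) [Field M] [NumberField M] (𝔪 : Ideal (𝓞 M)) (δ B : ℝ), 𝔪 ≠ ⊥ → 0 < δ →
      ∃ 𝔮 : Ideal (𝓞 M), 𝔮 ≠ ⊥ ∧ 𝔪 ∣ 𝔮 ∧
        B ≤ (Ideal.absNorm 𝔮 : ℝ) ∧ (unitClasses 𝔮 : ℝ) ≤ (Ideal.absNorm 𝔮 : ℝ) ^ δ := by
  classical
  refine ⟨?_, ?_, ?_, fun M _ _ 𝔪 δ B hm hδ => Pool.Agent.N784.HC.exists_modM M hm δ B hδ⟩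
  rotate_left
  · intro M _ _ ω hω
    obtain ⟨Φ, ψ, h⟩ := Pool.Agent.Helper13.CM.Eis.exists_char_eis ω hω
    exact ⟨Φ, ψ, h.typ, h.mul, h.ray, h.count⟩
  · intro M _ _ i hi
    obtain ⟨Φ, ψ, h⟩ := Pool.Agent.Helper13.CM.Gau.exists_char_gau i hi
    exact ⟨Φ, ψ, h.typ, h.mul, h.ray, h.count⟩
  obtain ⟨a₀, e, ha0, ha1, he, hk⟩ := Pool.Agent.N786.exists_h
  refine ⟨min a₀ (1 / 3), lt_min ha0 (by norm_num), lt_of_le_of_lt (min_le_left _ _) ha1, ?_⟩
  intro M _ _ A B 𝔣 hΔ ⟨Φ, ψ, hψ⟩ ε η hε hη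
  have HC : Pool.Agent.Helper13.CM.IsChar A B 𝔣 Φ ψ := ⟨hψ.type, hψ.mul, hψ.ray, hψ.trace⟩
  obtain ⟨δ, X₀, hδ, H0⟩ := Pool.Agent.Helper13.CM.core M HC ha1 he hk (min_le_left a₀ (1 / 3))
    (min_le_right a₀ (1 / 3)) ε η hε hη
  refine ⟨δ, max X₀ 2, hδ, fun 𝔮 hbot hle hX hU K _ _ ι art hK A' B' u w hI S hS α β
    hpos => ?_⟩
  obtain ⟨hu, hw, hA, hB⟩ := hI
  have htop : 𝔮 ≠ ⊤ := by
    rintro rfl
    rw [Ideal.absNorm_top] at hX
    have := (le_max_right X₀ 2).trans hX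
    norm_num at this
  have hX : X₀ ≤ (Ideal.absNorm 𝔮 : ℝ) := (le_max_left _ _).trans hX
  have hK' : Pool.Agent.N784.CZ.IsRCF 𝔮 K ι art :=
    ⟨hK.mul, hK.invariants, hK.kernel, hK.unramified, hK.frobenius⟩
  obtain ⟨F, hF, hprod, hzero⟩ := H0 𝔮 hbot hle hX hU K ι art hK'
  obtain ⟨hplaces, -⟩ := Pool.Agent.Helper13.CM.glue Pool.Agent.N400.CZ.t_split
    Pool.Agent.N717.CZ.t_local HC hle hbot htop ι art hK'
  have hn2 : ∀ v : HeightOneSpectrum (𝓞 K), 2 ≤ Ideal.absNorm v.asIdeal :=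
    fun v => Pool.Agent.H921R2.TatePole.two_le_nm v
  have hlp : ∀ (a ε : ℤ) (n : ℕ) (s : ℂ), localPoly a ε n s = Pool.Agent.W164.RC.lpoly a ε n s :=
    fun _ _ _ _ => rfl
  -- the numerator at the places of `S` not dividing `𝔮`
  set b : HeightOneSpectrum (𝓞 K) → ℂ := Pool.Agent.Helper13.CM.bet ψ ι with hb
  set g : HeightOneSpectrum (𝓞 K) → ℂ → ℂ := fun v s =>
    if 𝔮.map ι ≤ v.asIdeal then 1
    else Pool.Agent.Helper13.CM.ep (b v) (Ideal.absNorm v.asIdeal) s with hg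
  have hgdiff : ∀ v, Differentiable ℂ (g v) := by
    intro v
    rw [hg]
    by_cases h : 𝔮.map ι ≤ v.asIdeal
    · simp only [if_pos h]
      exact differentiable_const _
    · simp only [if_neg h]
      exact Pool.Agent.Helper13.CM.ep_diff _ (hn2 v)
  have hgne : ∀ v (s : ℂ), 1 / 2 < s.re → g v s ≠ 0 := by
    intro v s hs
    rw [hg]
    by_cases h : 𝔮.map ι ≤ v.asIdeal
    · simp only [if_pos h]
      exact one_ne_zero
    · simp only [if_neg h]
      exact Pool.Agent.Helper13.CM.ep_ne (hn2 v) (hplaces v h).2.1 hs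
  set P : HeightOneSpectrum (𝓞 K) → ℂ → ℂ := fun v s =>
    Pool.Agent.W164.RC.lpoly (α v) (β v) (Ideal.absNorm v.asIdeal) s with hP
  have hPdiff : ∀ v, Differentiable ℂ (P v) := fun v => Pool.Agent.W164.RC.lpoly_diff _ _ (hn2 v)
  have hPne : ∀ v ∈ S, ∀ s : ℂ, 1 / 2 < s.re → P v s ≠ 0 := by
    intro v hv s hs
    exact Pool.Agent.W164.RC.lpoly_ne (hn2 v) (hpos v hv) hs
  set R : ℂ → ℂ := fun s => ∏ v ∈ S, (g v s * (P v s)⁻¹) with hR
  have hRan : ∀ s : ℂ, 1 / 2 < s.re → AnalyticAt ℂ R s := by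
    intro s hs
    rw [hR]
    apply Finset.analyticAt_fun_prod
    intro v hv
    exact ((hgdiff v).analyticAt s).mul (((hPdiff v).analyticAt s).inv (hPne v hv s hs))
  have hRne : ∀ s : ℂ, 1 / 2 < s.re → R s ≠ 0 := by
    intro s hs
    rw [hR]
    simp only
    rw [Finset.prod_ne_zero_iff]
    intro v hv
    exact mul_ne_zero (hgne v s hs) (inv_ne_zero (hPne v hv s hs))
  have hset : ∀ T : ℝ, zeros (fun s => F s * R s) T =
      {s : ℂ | s ∈ Pool.Agent.N784.CZ.hp T ∧ F s = 0} := by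
    intro T
    ext s
    constructor
    · rintro ⟨h1, h3, h4, h5⟩
      exact ⟨⟨h1, h3, h4⟩, (mul_eq_zero.1 h5).resolve_right (hRne s h1)⟩
    · rintro ⟨⟨h1, h3, h4⟩, h5⟩
      refine ⟨h1, h3, h4, ?_⟩
      show F s * R s = 0
      rw [h5, zero_mul]
  have hord : ∀ s : ℂ, 1 / 2 < s.re →
      analyticOrderNatAt (fun s => F s * R s) s = analyticOrderNatAt F s := by
    intro s hs
    unfold analyticOrderNatAt
    rw [Pool.Agent.W164.RC.order_mul_ne (hF.analyticAt s) (hRan s hs) (hRne s hs)]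
  have hN : ∀ T : ℝ, N (fun s => F s * R s) T =
      Pool.Agent.H82R3.EK.cnt F (Pool.Agent.N784.CZ.hp T) := by
    intro T
    unfold N Pool.Agent.H82R3.EK.cnt
    rw [hset]
    exact finsum_mem_congr rfl fun s hs => hord s hs.1.1
  have hN₀ : ∀ T : ℝ, N₀ (fun s => F s * R s) T =
      Pool.Agent.H82R3.EK.cnt F {s : ℂ | s ∈ Pool.Agent.N784.CZ.hp T ∧ s.re = 1} := by
    intro T
    unfold N₀ Pool.Agent.H82R3.EK.cnt
    have h1 : {s : ℂ | s ∈ zeros (fun s => F s * R s) T ∧ s.re = 1} =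
        {s : ℂ | s ∈ {s : ℂ | s ∈ Pool.Agent.N784.CZ.hp T ∧ s.re = 1} ∧ F s = 0} := by
      rw [hset]
      ext s
      constructor
      · rintro ⟨⟨h1, h2⟩, h3⟩
        exact ⟨⟨h1, h3⟩, h2⟩
      · rintro ⟨⟨h1, h3⟩, h2⟩
        exact ⟨⟨h1, h2⟩, h3⟩
    rw [h1]
    exact finsum_mem_congr rfl fun s hs => hord s hs.1.1.1
  refine ⟨fun s => F s * R s, ⟨?_, ?_, ?_⟩, ?_⟩
  · intro s hs
    exact (hF.analyticAt s).mul (hRan s hs)
  · intro s hs
    have hs' : 1 / 2 < s.re := by linarith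
    have h3 : HasProd (fun v : HeightOneSpectrum (𝓞 K) =>
        if v ∈ S then g v s * (P v s)⁻¹ else 1) (R s) := by
      have h4 : R s = ∏ v ∈ S, (if v ∈ S then g v s * (P v s)⁻¹ else 1) := by
        rw [hR]
        exact Finset.prod_congr rfl fun v hv => by rw [if_pos hv]
      rw [h4]
      apply hasProd_prod_of_ne_finset_one
      intro v hv
      rw [if_neg hv]
    have h5 := (hprod s hs).mul h3
    refine h5.congr_fun ?_
    intro v
    unfold factor
    by_cases hv : v ∈ S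
    · rw [if_pos hv, if_pos hv, hlp]
      have hg1 := hgne v s hs'
      by_cases hvq : 𝔮.map ι ≤ v.asIdeal
      · rw [if_pos hvq]
        have : g v s = 1 := by rw [hg]; simp only [if_pos hvq]
        rw [this, one_mul, one_mul]
      · rw [if_neg hvq]
        have : g v s = Pool.Agent.Helper13.CM.ep (b v) (Ideal.absNorm v.asIdeal) s := by
          rw [hg]; simp only [if_neg hvq]
        rw [← this, ← mul_assoc, inv_mul_cancel₀ hg1, one_mul]
    · have hvq : ¬ 𝔮.map ι ≤ v.asIdeal := fun h => hv (hS v (Or.inl h))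
      have hvD : 2 * ι (4 * A ^ 3 + 27 * B ^ 2) * (u * w) ∉ v.asIdeal :=
        fun h => hv (hS v (Or.inr h))
      obtain ⟨hc, hbn, -⟩ := hplaces v hvq
      rw [if_neg hv, if_neg hv, if_neg hvq, mul_one]
      congr 1
      have htr := Pool.Agent.Helper13.CM.trace_eq' HC hle hbot htop ι v hc hA hB hvD
      rw [Pool.Agent.Helper13.CM.ep_eq _ (hn2 v) hbn]
      unfold localPoly
      have h6 : ((frobeniusTrace v.asIdeal A' B' : ℤ) : ℂ) = b v + (starRingEnd ℂ) (b v) := htr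
      rw [h6]
      push_cast
      rw [one_mul]
  · refine ⟨fun s => F s * ∏ v ∈ S, g v s, ?_, ?_⟩
    · exact hF.mul (Differentiable.fun_finsetProd fun v _ => hgdiff v)
    · intro s hs
      have h3 : ∏ v ∈ S, localPoly (α v) (β v) (Ideal.absNorm v.asIdeal) s =
          ∏ v ∈ S, P v s := rfl
      rw [h3]
      show F s * ∏ v ∈ S, g v s = F s * R s * ∏ v ∈ S, P v s
      rw [hR, mul_assoc, ← Finset.prod_mul_distrib]
      congr 1
      refine Finset.prod_congr rfl fun v hv => ?_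
      rw [mul_assoc, inv_mul_cancel₀ (hPne v hv s hs), mul_one]
  · intro T hT1 hT2
    obtain ⟨c1, c2, c3⟩ := hzero T hT1 hT2
    rw [hN, hN₀, hset]
    exact ⟨c1, c2, c3⟩

end Pool.Agent.Results.MP_fb225e_nt.ComplexMultiplication6725
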