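import Pool.Agent.Helper13.TD.Tot
import Pool.Graph.R_seed8.W165.CE.Euler

/-!
# The zeros of `L(E/ℚ(ζ_q), s)` near the line `Re s = 1`, for every elliptic curve `E` over `ℚ`

`E : y² = x³ + a x + b` is any elliptic curve over `ℚ` (with or without complex multiplication), `N`
is its conductor and `f ∈ S_2(Γ₀(N))` is its newform.  For every cyclotomic field `K = ℚ(ζ_q)`, `q`
prime to `N`, the Hasse-Weil `L`-function `L(E/K, s)` (the Euler product over all primes `v` of `K`,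
with the numbers of points over the residue fields) is entire, and we prove a zero density theorem for
this single function: there are at most `C (log (q+2))^10 (1+T)^3 ∑_{d ∣ q} d^(1-δ)` zeros in
`1/2 < Re s < 3/2`, `|Im s| ≤ T` whose distance from the line `Re s = 1` is at least `δ`.
The number of all zeros being at least `c φ(q) T log q`, it follows that for `q → ∞` and `T ≤ (log q)^k`
all but `1 / log q` of the zeros are within `O(log log q / log q)` of the line `Re s = 1`.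

Proof.  `L(E/K, s)` is the product of the twists `L(f ⊗ χ, s)` by the primitive characters inducing the
characters modulo `q`.  (1) Mean square of the twists over the primitive characters of one conductor `r`
near the critical line: the function minus the Dirichlet polynomial of length `r` and its reflection is
estimated on the lines `1 + 1/log r` and `-1/log r` by the large sieve for the characters modulo `r`,
and then by the three lines theorem for a vector valued function.  (2) A mollifier of length about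
`r`, from the coefficients of `1/L(f, s)`, which by Hasse's bound are at most the divisor function; the
first mean of `1 - L M` over the characters decreases like `r^(1-(σ-1/2))`, up to powers of `log r`.
(3) Jensen's inequality in the right form of Selberg (from helper856) for the zeros.
The functional equations and the Rankin-Selberg bound are the joint work of helper388 and others
(`Pool.Graph.R_seed8.W388.TW`), the Euler product over `K` is that of helper165.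
-/

set_option autoImplicit false
set_option maxHeartbeats 4000000

open Complex NumberField IsDedekindDomain UpperHalfPlane MatrixGroups CongruenceSubgroup

namespace Pool.Agent.Results.MP_fb225e_nt.CyclotomicZeroDensity

/-- The coefficient `a_p` of `E : y² = x³ + a x + b` at a prime `p ∤ 2 (4a³ + 27b²)`: `p` minus the
number of pairs `(x, y)` modulo `p` with `y² = x³ + a x + b`. -/
noncomputable def ap (a b : ℤ) (p : ℕ) : ℤ :=
  (p : ℤ) - Nat.card {x : ZMod p × ZMod p //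
    x.2 ^ 2 = x.1 ^ 3 + (a : ZMod p) * x.1 + (b : ZMod p)}

/-- The `n`-th Fourier coefficient of `f`. -/
noncomputable def coef {N : ℕ} (f : CuspForm (Gamma0 N : Subgroup (GL (Fin 2) ℝ)) 2) (n : ℕ) : ℂ :=
  (qExpansion 1 f).coeff n

/-- `f ∈ S_2(Γ₀(N))` is the newform of the elliptic curve `E : y² = x³ + a x + b`: the Fourier
coefficients `c(n)` of `f` are real with `c(1) = 1`, they satisfy the Hecke relations
`c(mn) = c(m) c(n)` for coprime `m`, `n` and `c(p^(j+2)) = c(p) c(p^(j+1)) - p c(p^j)` (without the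
last term if `p ∣ N`), `f` is an eigenfunction of the Fricke involution:
`f(-1/(Nτ)) = -w N τ² f(τ)` with `w = ±1`, and for all primes `p ∤ 2 (4a³ + 27b²)` one has `p ∤ N`
and `c(p) = a_p(E)`. -/
structure IsFormOf (a b : ℤ) (N : ℕ) (f : CuspForm (Gamma0 N : Subgroup (GL (Fin 2) ℝ)) 2) :
    Prop where
  one : coef f 1 = 1
  real : ∀ n, (coef f n).im = 0
  mul : ∀ m n : ℕ, Nat.Coprime m n → coef f (m * n) = coef f m * coef f n
  pow : ∀ p j : ℕ, p.Prime → coef f (p ^ (j + 2)) = coef f p * coef f (p ^ (j + 1)) -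
      (if p ∣ N then 0 else (p : ℂ) * coef f (p ^ j))
  fricke : ∃ w : ℝ, (w = 1 ∨ w = -1) ∧ ∀ τ τ' : ℍ, (τ' : ℂ) * ((N : ℂ) * (τ : ℂ)) = -1 →
    f τ' = -(w : ℂ) * (N : ℂ) * (τ : ℂ) ^ 2 * f τ
  points : ∀ p : ℕ, p.Prime → ¬ (p : ℤ) ∣ 2 * (4 * a ^ 3 + 27 * b ^ 2) →
    ¬ p ∣ N ∧ coef f p = (ap a b p : ℂ)

/-- `pw t u n = α ^ n + β ^ n`, where `α`, `β` are the roots of `X² - t X + u`. -/
noncomputable def pw (t u : ℂ) : ℕ → ℂ
  | 0 => 2
  | 1 => t
  | n + 2 => t * pw t u (n + 1) - u * pw t u n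

section
variable {K : Type} [Field K] [NumberField K]

/-- The number `a_v` of `E : y² = x³ + a x + b` at a prime `v` of `K`: `Nv` minus the number of affine
solutions `(x, y)` of the equation over the residue field `𝓞 K / v`. -/
noncomputable def av (a b : ℤ) (v : HeightOneSpectrum (𝓞 K)) : ℤ :=
  ((Ideal.absNorm v.asIdeal : ℕ) : ℤ) -
    ((Nat.card {x : (𝓞 K ⧸ v.asIdeal) × (𝓞 K ⧸ v.asIdeal) //
      x.2 ^ 2 = x.1 ^ 3 + (a : 𝓞 K ⧸ v.asIdeal) * x.1 + (b : 𝓞 K ⧸ v.asIdeal)} : ℕ) : ℤ)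

open Classical in
/-- The local factor of `L(E/K, s)` at the prime `v` of `K`.  If `v ∤ 2 (4a³ + 27b²)`, it is
`(1 - a_v (Nv)^(-s) + (Nv)^(1-2s))⁻¹`.  If `v ∣ 2 (4a³ + 27b²)` and `Nv = p ^ d` with `p` prime, it is
`(1 - (α^d + β^d) (Nv)^(-s) + (Nv)^(1-2s))⁻¹` for `p ∤ N`, where `α`, `β` are the roots of
`X² - c(p) X + p`, and `(1 - c(p)^d (Nv)^(-s))⁻¹` for `p ∣ N`. -/
noncomputable def factor (a b : ℤ) {N : ℕ} (f : CuspForm (Gamma0 N : Subgroup (GL (Fin 2) ℝ)) 2)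
    (s : ℂ) (v : HeightOneSpectrum (𝓞 K)) : ℂ :=
  if ((2 * (4 * a ^ 3 + 27 * b ^ 2) : ℤ) : 𝓞 K) ∈ v.asIdeal then
    (1 - pw (coef f (Ideal.absNorm v.asIdeal).minFac)
          (if (Ideal.absNorm v.asIdeal).minFac ∣ N then 0 else ((Ideal.absNorm v.asIdeal).minFac : ℂ))
          ((Ideal.absNorm v.asIdeal).factorization (Ideal.absNorm v.asIdeal).minFac)
          * ((Ideal.absNorm v.asIdeal : ℕ) : ℂ) ^ (-s)
      + (if (Ideal.absNorm v.asIdeal).minFac ∣ N then (0 : ℂ) else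
          ((Ideal.absNorm v.asIdeal : ℕ) : ℂ) ^ (1 - 2 * s)))⁻¹
  else
    (1 - ((av a b v : ℤ) : ℂ) * ((Ideal.absNorm v.asIdeal : ℕ) : ℂ) ^ (-s)
      + ((Ideal.absNorm v.asIdeal : ℕ) : ℂ) ^ (1 - 2 * s))⁻¹

end

/-- The zeros of `F` with `1/2 < Re s < 3/2`, `|Im s| ≤ T` and `|Re s - 1| ≥ δ`. -/
def zeros (F : ℂ → ℂ) (δ T : ℝ) : Set ℂ :=
  {s : ℂ | F s = 0 ∧ 1 / 2 < s.re ∧ s.re < 3 / 2 ∧ δ ≤ |s.re - 1| ∧ |s.im| ≤ T}

/-- The number of these zeros, counted with multiplicity.  (`Nz F 0 T` is the number of all zeros with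
`1/2 < Re s < 3/2`, `|Im s| ≤ T`.) -/
noncomputable def Nz (F : ℂ → ℂ) (δ T : ℝ) : ℕ := ∑ᶠ s ∈ zeros F δ T, analyticOrderNatAt F s

/-! ### Translation from the analytic normalisation -/

theorem order_shift (L : ℂ → ℂ) (s : ℂ) :
    analyticOrderNatAt (fun z => L (z - 1 / 2)) (s + 1 / 2) = analyticOrderNatAt L s := by
  have hg : AnalyticAt ℂ (fun z : ℂ => z - 1 / 2) (s + 1 / 2) := by fun_prop
  have hd : deriv (fun z : ℂ => z - 1 / 2) (s + 1 / 2) ≠ 0 := by
    simp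
  have h := analyticOrderAt_comp_of_deriv_ne_zero (f := L) hg hd
  unfold analyticOrderNatAt
  have h2 : (fun z : ℂ => L (z - 1 / 2)) = L ∘ (fun z : ℂ => z - 1 / 2) := rfl
  rw [h2, h]
  norm_num

open Pool.Agent.H13.TD (Rg Zst_eq Zst_fin)
open Pool.Agent.A856.SD (Zst)

theorem zeros_shift (L : ℂ → ℂ) (δ T : ℝ) :
    zeros (fun z => L (z - 1 / 2)) δ T = (fun s : ℂ => s + 1 / 2) '' {s : ℂ | s ∈ Rg δ T ∧ L s = 0} := by
  ext s
  constructor
  · rintro ⟨h1, h2, h3, h4, h5⟩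
    have e1 : (s - 1 / 2 : ℂ).re = s.re - 1 / 2 := by simp
    have e2 : (s - 1 / 2 : ℂ).im = s.im := by simp
    refine ⟨s - 1 / 2, ⟨⟨by rw [e1]; linarith, by rw [e1]; linarith, ?_, by rw [e2]; exact h5⟩, h1⟩,
      by ring⟩
    rw [e1]
    have : s.re - 1 / 2 - 1 / 2 = s.re - 1 := by ring
    rw [this]
    exact h4
  · rintro ⟨t, ⟨⟨h1, h2, h3, h4⟩, h5⟩, rfl⟩
    have e1 : (t + 1 / 2 : ℂ).re = t.re + 1 / 2 := by simp
    have e2 : (t + 1 / 2 : ℂ).im = t.im := by simp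
    refine ⟨?_, by rw [e1]; linarith, by rw [e1]; linarith, ?_, by rw [e2]; exact h4⟩
    · show L (t + 1 / 2 - 1 / 2) = 0
      rw [add_sub_cancel_right]
      exact h5
    · rw [e1]
      have : t.re + 1 / 2 - 1 = t.re - 1 / 2 := by ring
      rw [this]
      exact h3

theorem inj_shift : Function.Injective (fun s : ℂ => s + 1 / 2) := fun a b h => by
  simpa using h

theorem Nz_shift (L : ℂ → ℂ) (δ T : ℝ) :
    Nz (fun z => L (z - 1 / 2)) δ T = Pool.Agent.H82R3.EK.cnt L (Rg δ T) := by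
  unfold Nz Pool.Agent.H82R3.EK.cnt
  rw [zeros_shift, finsum_mem_image (inj_shift.injOn)]
  refine finsum_congr fun s => finsum_congr fun _ => ?_
  exact order_shift L s

theorem lamf_eq {N : ℕ} (f : CuspForm (Gamma0 N : Subgroup (GL (Fin 2) ℝ)) 2)
    (hr : ∀ n, (coef f n).im = 0) (p : ℕ) (hp : p.Prime) (s : ℂ) :
    (W388.lamf f p : ℂ) * (p : ℂ) ^ (-(s - 1 / 2)) = coef f p * (p : ℂ) ^ (-s) := by
  have hp0 : (0 : ℝ) < p := by exact_mod_cast hp.pos
  have hpc : (p : ℂ) ≠ 0 := by exact_mod_cast hp.ne_zero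
  have hc : coef f p = ((coef f p).re : ℂ) := by
    apply Complex.ext
    · simp
    · simp [hr p]
  unfold W388.lamf
  rw [hc]
  unfold coef
  rw [show -(s - 1 / 2) = -s + (1 / 2 : ℂ) by ring, Complex.cpow_add _ _ hpc]
  push_cast
  rw [Complex.ofReal_cpow hp0.le]
  have e : ((((2 : ℝ) - 1) / 2 : ℝ) : ℂ) = (1 / 2 : ℂ) := by push_cast; norm_num
  rw [e]
  have hne : (p : ℂ) ^ (1 / 2 : ℂ) ≠ 0 := by
    rw [Ne, Complex.cpow_eq_zero_iff]
    exact fun h => hpc h.1
  rw [Complex.ofReal_natCast]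
  field_simp

theorem eul_shift {N : ℕ} (f : CuspForm (Gamma0 N : Subgroup (GL (Fin 2) ℝ)) 2)
    (hr : ∀ n, (coef f n).im = 0) (q : ℕ)
    (χ : DirichletCharacter ℂ q) (s : ℂ) (p : ℕ) (hp : p.Prime) :
    W165.CE.eul N (coef f) q χ s p =
      (1 - χ (p : ZMod q) * (W388.lamf f p : ℂ) * (p : ℂ) ^ (-(s - 1 / 2)) +
      (if p ∣ N then 0 else χ (p : ZMod q) ^ 2 * (p : ℂ) ^ (-2 * (s - 1 / 2))))⁻¹ := by
  unfold W165.CE.eul
  rw [mul_assoc (χ (p : ZMod q)) (W388.lamf f p : ℂ), lamf_eq f hr p hp s,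
    mul_assoc (χ (p : ZMod q)) (coef f p), show (-2 * (s - 1 / 2) : ℂ) = 1 - 2 * s by ring,
    Pool.Agent.H82R3.EK.prime_cpow p hp.ne_zero s]
  split_ifs with h
  · rw [zero_mul, mul_zero]
  · rfl

theorem pw_eq_lib (t u : ℂ) : ∀ n : ℕ, pw t u n = W165.CE.pw t u n
  | 0 => rfl
  | 1 => rfl
  | n + 2 => by
    rw [pw, W165.CE.pw, pw_eq_lib t u (n + 1), pw_eq_lib t u n]

theorem factor_eq_lib (a b : ℤ) {N : ℕ} (f : CuspForm (Gamma0 N : Subgroup (GL (Fin 2) ℝ)) 2)
    {K : Type} [Field K] [NumberField K] (s : ℂ) (v : HeightOneSpectrum (𝓞 K)) :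
    factor a b f s v = W165.CE.fac a b N (coef f) s v := by
  unfold factor W165.CE.fac
  rw [pw_eq_lib]
  rfl

open Pool.Agent.H82R3.EK in
/-- **Main theorem.** Let `E : y² = x³ + a x + b` be an elliptic curve over `ℚ` and let
`f ∈ S_2(Γ₀(N))` be its newform. There are functions `L q` such that for every `q` prime to `N` and
every cyclotomic field `K = ℚ(ζ_q)`, `L q` is entire and is for `Re s > 3/2` the Euler product over all
primes `v` of `K` of the local factors of `E`, and constants `C`, `q₀` such that: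
(1) for all `q` prime to `N`, `δ ≥ 0` and `T ≥ 0` the number of the zeros of `L q` with
`1/2 < Re s < 3/2`, `|Im s| ≤ T` and `|Re s - 1| ≥ δ` (with multiplicity) is at most
`C (log (q+2))^10 (1+T)^3 ∑_{d ∣ q} d^(1-δ)`;
(2) for `q ≥ q₀` prime to `N` and `log log q ≤ T ≤ q` the number of all zeros of `L q` with
`1/2 < Re s < 3/2`, `|Im s| ≤ T` is at least `φ(q) T (log q) / 256`, and the proportion of those with
`|Re s - 1| ≥ δ` is at most `C T² (log q)^11 q^(-δ/2)`, for all `δ` between `0` and `1`;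
(3) for every `k` there is `q₁` such that for `q ≥ q₁` prime to `N` and `log log q ≤ T ≤ (log q)^k` all
zeros with the exception of at most the proportion `1/log q` have
`|Re s - 1| < (4k + 26) log log q / log q`. -/
theorem result (a b : ℤ) (hE : 4 * a ^ 3 + 27 * b ^ 2 ≠ 0) (N : ℕ) [NeZero N]
    (f : CuspForm (Gamma0 N : Subgroup (GL (Fin 2) ℝ)) 2) (hf : IsFormOf a b N f) :
    ∃ L : ℕ → ℂ → ℂ,
      (∀ q : ℕ, 1 ≤ q → Nat.Coprime q N → Differentiable ℂ (L q) ∧
        ∀ (K : Type) [Field K] [NumberField K] [IsCyclotomicExtension {q} ℚ K] (s : ℂ), 3 / 2 < s.re →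
          HasProd (fun v : HeightOneSpectrum (𝓞 K) => factor a b f s v) (L q s)) ∧
      ∃ (C : ℝ) (q₀ : ℕ), 1 ≤ C ∧ 3 ≤ q₀ ∧
        (∀ q : ℕ, 1 ≤ q → Nat.Coprime q N → ∀ δ T : ℝ, 0 ≤ δ → 0 ≤ T →
          (zeros (L q) δ T).Finite ∧
          (Nz (L q) δ T : ℝ) ≤
            C * Real.log (q + 2) ^ 10 * (1 + T) ^ 3 * ∑ d ∈ q.divisors, (d : ℝ) ^ (1 - δ)) ∧
        (∀ q : ℕ, q₀ ≤ q → Nat.Coprime q N → ∀ T : ℝ, Real.log (Real.log q) ≤ T → T ≤ q →
          1 / 256 * ((q.totient : ℝ) * T * Real.log q) ≤ (Nz (L q) 0 T : ℝ) ∧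
          ∀ δ : ℝ, 0 ≤ δ → δ ≤ 1 → (Nz (L q) δ T : ℝ) ≤
            C * T ^ 2 * Real.log q ^ 11 * (q : ℝ) ^ (-(δ / 2)) * (Nz (L q) 0 T : ℝ)) ∧
        (∀ k : ℝ, 0 ≤ k → ∃ q₁ : ℕ, ∀ q : ℕ, q₁ ≤ q → Nat.Coprime q N → ∀ T : ℝ,
          Real.log (Real.log q) ≤ T → T ≤ Real.log q ^ k →
          (Nz (L q) ((4 * k + 26) * (Real.log (Real.log q) / Real.log q)) T : ℝ) ≤
            1 / Real.log q * (Nz (L q) 0 T : ℝ)) := by
  classical
  obtain ⟨w, hw, hfr⟩ := hf.fricke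
  have hN0 : (0 : ℝ) ≤ (N : ℝ) := Nat.cast_nonneg N
  have hsq : ((Real.sqrt N : ℝ) : ℂ) ^ 2 = (N : ℂ) := by
    have h1 : (Real.sqrt N) ^ 2 = (N : ℝ) := Real.sq_sqrt hN0
    exact_mod_cast congrArg (fun x : ℝ => (x : ℂ)) h1
  have hf' : W388.IsNewf N 2 f w := by
    refine ⟨hf.one, hf.real, hf.mul, ?_, hw, ?_⟩
    · intro p j hp
      have h1 := hf.pow p j hp
      unfold coef at h1
      rw [h1]
      norm_num
    · intro τ τ' h
      rw [hfr τ τ' h]
      congr 1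
      have hI : Complex.I ^ 2 = -1 := Complex.I_sq
      have : (((Real.sqrt N : ℝ) : ℂ) * (τ : ℂ) / Complex.I) ^ (2 : ℤ) = -((N : ℂ) * (τ : ℂ) ^ 2) := by
        rw [zpow_ofNat, div_pow, mul_pow, hsq, hI]
        ring
      rw [this]
      ring
  obtain ⟨A, L, hA, hL⟩ := Pool.Agent.H13.TD.pack hf'
  obtain ⟨C₁, hC₁, hrs⟩ := Pool.Agent.H13.TD.rsb hf'
  have hlam := W388.heckeSeq_lamf hf'
  have H : ∀ p : ℕ, p.Prime → ¬ (p : ℤ) ∣ 2 * (4 * a ^ 3 + 27 * b ^ 2) →
      ¬ p ∣ N ∧ coef f p = ((W165.CE.ap0 a b p : ℤ) : ℂ) := fun p hp h => hf.points p hp h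
  have hram := Pool.Agent.H13.TD.ram H
  have hs0 : (2 * (4 * a ^ 3 + 27 * b ^ 2)).natAbs ≠ 0 :=
    Int.natAbs_ne_zero.mpr (mul_ne_zero two_ne_zero hE)
  have hL1 : ∀ (q : ℕ) (χ : DirichletCharacter ℂ q), 1 ≤ q → Nat.Coprime q N → χ.IsPrimitive →
      Pool.Agent.H13.TD.IsL N (W388.lamf f) χ (L q χ) := fun q χ h1 h2 h3 => (hL q χ h1 h2 h3).1
  have hLne : ∀ (q : ℕ) (χ : DirichletCharacter ℂ q), 1 ≤ q → Nat.Coprime q N → χ.IsPrimitive →
      ∃ z, L q χ z ≠ 0 := by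
    intro q χ h1 h2 h3
    haveI : NeZero q := ⟨by omega⟩
    exact Pool.Agent.H13.TD.F_ne hlam hrs hs0 hram χ (hL1 q χ h1 h2 h3)
  obtain ⟨C₂, hC₂, hdens⟩ := Pool.Agent.H13.TD.dens_q hlam hrs hC₁.le hs0 hram hL1
  obtain ⟨q₀, hq₀, hlow⟩ := Pool.Agent.H13.TD.low_q (N := N) hA (F := L) (fun q χ h1 h2 h3 =>
    ⟨(hL1 q χ h1 h2 h3).1.diff, hLne q χ h1 h2 h3, (hL q χ h1 h2 h3).2.2⟩)
  -- the product
  obtain ⟨Lq, hLq⟩ : ∃ Lq : ℕ → ℂ → ℂ, Lq = fun q s => ∏ᶠ χ : DirichletCharacter ℂ q,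
      L χ.conductor χ.primitiveCharacter (s - 1 / 2) := ⟨_, rfl⟩
  have hprim : ∀ (q : ℕ) [NeZero q], Nat.Coprime q N → ∀ χ : DirichletCharacter ℂ q,
      Differentiable ℂ (L χ.conductor χ.primitiveCharacter) ∧
      ∃ z, L χ.conductor χ.primitiveCharacter z ≠ 0 := by
    intro q _ hqN χ
    have c1 := Nat.one_le_iff_ne_zero.2 χ.conductor_ne_zero
    have c2 := Nat.Coprime.coprime_dvd_left χ.conductor_dvd_level hqN
    exact ⟨(hL1 _ _ c1 c2 χ.primitiveCharacter_isPrimitive).1.diff,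
      hLne _ _ c1 c2 χ.primitiveCharacter_isPrimitive⟩
  -- the zeros of the product
  have key : ∀ q : ℕ, 1 ≤ q → Nat.Coprime q N → ∀ δ T : ℝ, (zeros (Lq q) δ T).Finite ∧
      (Nz (Lq q) δ T : ℝ) = SS (fun d χ => (cnt (L d χ) (Rg δ T) : ℝ)) q := by
    intro q hq hqN δ T
    haveI : NeZero q := ⟨by omega⟩
    have e1 : Lq q = fun s : ℂ => (fun z : ℂ => ∏ χ : DirichletCharacter ℂ q,
        L χ.conductor χ.primitiveCharacter z) (s - 1 / 2) := by
      rw [hLq]
      funext s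
      exact finprod_eq_prod_of_fintype _
    have hfin : ∀ χ : DirichletCharacter ℂ q,
        {s : ℂ | s ∈ Rg δ T ∧ L χ.conductor χ.primitiveCharacter s = 0}.Finite := by
      intro χ
      rw [Zst_eq]
      exact Zst_fin (hprim q hqN χ).1 (hprim q hqN χ).2 δ 0 T
    rw [e1]
    constructor
    · rw [zeros_shift (fun z : ℂ => ∏ χ : DirichletCharacter ℂ q,
        L χ.conductor χ.primitiveCharacter z) δ T]
      apply Set.Finite.image
      refine (Set.finite_iUnion hfin).subset ?_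
      rintro s ⟨h1, h2⟩
      simp only [Finset.prod_eq_zero_iff] at h2
      obtain ⟨χ, -, h3⟩ := h2
      exact Set.mem_iUnion.mpr ⟨χ, h1, h3⟩
    · rw [Nz_shift (fun z : ℂ => ∏ χ : DirichletCharacter ℂ q, L χ.conductor χ.primitiveCharacter z) δ T]
      unfold SS
      rw [finsum_eq_sum_of_fintype, cnt_prod Finset.univ
        (fun χ : DirichletCharacter ℂ q => L χ.conductor χ.primitiveCharacter)
        (W := Rg δ T) (fun χ _ s _ => (hprim q hqN χ).1.analyticAt s)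
        (fun χ _ s _ => Pool.Agent.A856.SD.order_ne_top (hprim q hqN χ).1 (hprim q hqN χ).2 s)
        (fun χ _ => hfin χ)]
      push_cast
      rfl
  -- (2)
  obtain ⟨C, hC⟩ : ∃ C : ℝ, C = C₂ * (1024 * 24 * 768) := ⟨_, rfl⟩
  have hCC₂ : C₂ ≤ C := by rw [hC]; linarith
  have hlower : ∀ q : ℕ, q₀ ≤ q → Nat.Coprime q N → ∀ T : ℝ,
      Real.log (Real.log q) ≤ T → T ≤ q → 1 / 256 * ((q.totient : ℝ) * T * Real.log q) ≤
        (Nz (Lq q) 0 T : ℝ) := by
    intro q hq hqN T hT1 hT2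
    rw [(key q (by omega) hqN 0 T).2]
    exact hlow q hq hqN T hT1 hT2
  have hupper : ∀ q : ℕ, 1 ≤ q → Nat.Coprime q N → ∀ δ T : ℝ, 0 ≤ δ → 0 ≤ T →
      (Nz (Lq q) δ T : ℝ) ≤
        C₂ * Real.log (q + 2) ^ 10 * (1 + T) ^ 3 * ∑ d ∈ q.divisors, (d : ℝ) ^ (1 - δ) := by
    intro q hq hqN δ T hδ hT
    rw [(key q hq hqN δ T).2]
    exact hdens q hq hqN δ T hδ hT
  have hsecond : ∀ q : ℕ, q₀ ≤ q → Nat.Coprime q N → ∀ T : ℝ,
      Real.log (Real.log q) ≤ T → T ≤ q → 1 ≤ T →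
          ∀ δ : ℝ, 0 ≤ δ → δ ≤ 1 → (Nz (Lq q) δ T : ℝ) ≤
            C * T ^ 2 * Real.log q ^ 11 * (q : ℝ) ^ (-(δ / 2)) * (Nz (Lq q) 0 T : ℝ) := by
    intro q hq hqN T hT1 hT2 hT3 δ hδ hδ1
    have hq3 : 3 ≤ q := hq₀.trans hq
    have hq3' : (3 : ℝ) ≤ q := by exact_mod_cast hq3
    have hq0 : (0 : ℝ) < q := by linarith
    have hl1 : 1 ≤ Real.log q := by
      rw [Real.le_log_iff_exp_le hq0]
      have := Real.exp_one_lt_d9
      linarith
    have h1 := hupper q (by omega) hqN δ T hδ (by linarith)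
    have h2 := Pool.Agent.H13.TD.sum_div_le (q := q) (by omega) hδ hδ1
    have h3 := hlower q hq hqN T hT1 hT2
    have h4 := Pool.Agent.H13.TD.totient_ge hq3
    have h5 : Real.log ((q : ℝ) + 2) ≤ 2 * Real.log q := by
      have e1 : (q : ℝ) + 2 ≤ (q : ℝ) ^ 2 := by nlinarith
      have e2 := Real.log_le_log (by linarith) e1
      rwa [Real.log_pow] at e2
    have h50 : 0 ≤ Real.log ((q : ℝ) + 2) := Real.log_nonneg (by linarith)
    have h6 : Real.log ((q : ℝ) + 2) ^ 10 ≤ (2 * Real.log q) ^ 10 := pow_le_pow_left₀ h50 h5 10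
    have h7 : (1 + T) ^ 3 ≤ (2 * T) ^ 3 := pow_le_pow_left₀ (by linarith) (by linarith) 3
    -- the number of all zeros
    have h8 : (q : ℝ) * T ≤ 768 * (Nz (Lq q) 0 T : ℝ) := by
      have e1 : (q : ℝ) / 3 ≤ q.totient * Real.log q := by
        rw [div_le_iff₀ (by positivity)] at h4
        linarith
      have e2 : (q : ℝ) / 3 * T ≤ (q.totient * Real.log q) * T :=
        mul_le_mul_of_nonneg_right e1 (by linarith)
      nlinarith
    have h9 : (q : ℝ) ^ (1 - δ / 2) = q * (q : ℝ) ^ (-(δ / 2)) := by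
      rw [sub_eq_add_neg, Real.rpow_add hq0, Real.rpow_one]
    have hp : 0 < (q : ℝ) ^ (-(δ / 2)) := Real.rpow_pos_of_pos hq0 _
    calc (Nz (Lq q) δ T : ℝ)
        ≤ C₂ * Real.log (q + 2) ^ 10 * (1 + T) ^ 3 * ∑ d ∈ q.divisors, (d : ℝ) ^ (1 - δ) := h1
      _ ≤ C₂ * (2 * Real.log q) ^ 10 * (2 * T) ^ 3 *
          ((2 + Real.log q) * (q : ℝ) ^ (1 - δ / 2)) := by gcongr
      _ ≤ C₂ * (2 * Real.log q) ^ 10 * (2 * T) ^ 3 *
          ((3 * Real.log q) * (q : ℝ) ^ (1 - δ / 2)) := by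
          have : 2 + Real.log q ≤ 3 * Real.log q := by linarith
          gcongr
      _ = C₂ * (1024 * 24) * T ^ 2 * Real.log q ^ 11 * (q : ℝ) ^ (-(δ / 2)) * (q * T) := by
          rw [h9]; ring
      _ ≤ C₂ * (1024 * 24) * T ^ 2 * Real.log q ^ 11 * (q : ℝ) ^ (-(δ / 2)) *
          (768 * (Nz (Lq q) 0 T : ℝ)) := by gcongr
      _ = _ := by rw [hC]; ring
  refine ⟨Lq, ?_, C, max q₀ 16, hC₂.trans hCC₂, le_trans (by norm_num) (le_max_right _ _), ?_, ?_, ?_⟩
  · -- continuation and Euler product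
    intro q hq hqM
    have : NeZero q := ⟨by omega⟩
    rw [hLq]
    simp_rw [finprod_eq_prod_of_fintype]
    refine ⟨?_, ?_⟩
    · have h1 : ∀ χ ∈ (Finset.univ : Finset (DirichletCharacter ℂ q)),
          Differentiable ℂ (fun s : ℂ => L χ.conductor χ.primitiveCharacter (s - 1 / 2)) := by
        intro χ _
        exact (hprim q hqM χ).1.comp (by fun_prop)
      exact Differentiable.fun_finsetProd h1
    · intro K _ _ _ s hs
      have h2 := W165.CE.hasProd_euler hE H (fun q χ s => L q χ (s - 1 / 2)) (by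
        intro q χ h1 h2 h3 s hs
        have h4 := (hL q χ h1 h2 h3).2.1 (s - 1 / 2) (by
          have : (s - 1 / 2 : ℂ).re = s.re - 1 / 2 := by simp
          rw [this]; linarith)
        refine (congrArg (fun g => HasProd g (L q χ (s - 1 / 2))) (funext fun p => ?_)).mpr h4
        exact eul_shift f hf.real q χ s p p.2) q hqM K s hs
      refine (congrArg (fun g => HasProd g _) (funext fun v => ?_)).mpr h2
      exact factor_eq_lib a b f s v
  · -- (1)
    intro q hq hqN δ T hδ hT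
    refine ⟨(key q hq hqN δ T).1, (hupper q hq hqN δ T hδ hT).trans ?_⟩
    have h1 : 0 ≤ Real.log ((q : ℝ) + 2) := Real.log_nonneg (by
      have : (0 : ℝ) ≤ q := Nat.cast_nonneg _
      linarith)
    have h2 : 0 ≤ ∑ d ∈ q.divisors, (d : ℝ) ^ (1 - δ) := Finset.sum_nonneg fun _ _ => by positivity
    gcongr
  · -- (2)
    intro q hq hqN T hT1 hT2
    have hq1 : q₀ ≤ q := (le_max_left _ _).trans hq
    have hq16 : (16 : ℝ) ≤ q := by exact_mod_cast (le_max_right _ _).trans hq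
    refine ⟨hlower q hq1 hqN T hT1 hT2, hsecond q hq1 hqN T hT1 hT2 (le_trans ?_ hT1)⟩
    -- `log log q ≥ 1`
    have he : Real.exp 1 < 2.7182818286 := Real.exp_one_lt_d9
    have h1 : Real.exp 1 ≤ Real.log 16 := by
      have : (16 : ℝ) = 2 ^ 4 := by norm_num
      rw [this, Real.log_pow]
      have := Real.log_two_gt_d9
      push_cast
      linarith
    have h2 : Real.exp 1 ≤ Real.log q := h1.trans (Real.log_le_log (by norm_num) hq16)
    rwa [Real.le_log_iff_exp_le (lt_of_lt_of_le (Real.exp_pos _) h2)]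
  · -- (3)
    intro k hk
    have ev1 : ∀ᶠ x : ℝ in Filter.atTop, x ^ k ≤ Real.exp x := by
      filter_upwards [(tendsto_exp_div_rpow_atTop k).eventually_ge_atTop 1,
        Filter.eventually_gt_atTop (0 : ℝ)] with x hx hx0
      rwa [one_le_div (Real.rpow_pos_of_pos hx0 _)] at hx
    have ev2 : ∀ᶠ x : ℝ in Filter.atTop, (4 * k + 26) * Real.log x ≤ x := by
      have h1 := Real.isLittleO_log_id_atTop.bound (c := 1 / (4 * k + 26)) (by positivity)
      filter_upwards [h1, Filter.eventually_gt_atTop (0 : ℝ)] with x hx hx0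
      rw [Real.norm_eq_abs, id, Real.norm_eq_abs, abs_of_pos hx0] at hx
      have h2 := (le_abs_self _).trans hx
      have h3 : 0 < 4 * k + 26 := by linarith
      calc (4 * k + 26) * Real.log x ≤ (4 * k + 26) * (1 / (4 * k + 26) * x) :=
            mul_le_mul_of_nonneg_left h2 h3.le
        _ = x := by field_simp
    obtain ⟨x0, hx0⟩ := Filter.eventually_atTop.mp (ev1.and (ev2.and (Filter.eventually_ge_atTop C)))
    refine ⟨max (max q₀ 16) ⌈Real.exp x0⌉₊, ?_⟩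
    intro q hq hqN T hT1 hT2
    have hqa : max q₀ 16 ≤ q := (le_max_left _ _).trans hq
    have hq1 : q₀ ≤ q := (le_max_left _ _).trans hqa
    have hq16 : (16 : ℝ) ≤ q := by exact_mod_cast (le_max_right _ _).trans hqa
    have hq0 : (0 : ℝ) < q := by linarith
    have hqx : Real.exp x0 ≤ q := by
      refine (Nat.le_ceil _).trans ?_
      exact_mod_cast (le_max_right _ _).trans hq
    have hlx : x0 ≤ Real.log q := by rw [Real.le_log_iff_exp_le hq0]; exact hqx
    obtain ⟨e1, e2, e3⟩ := hx0 _ hlx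
    rw [Real.exp_log hq0] at e1
    obtain ⟨l, hl⟩ : ∃ l : ℝ, l = Real.log q := ⟨_, rfl⟩
    rw [← hl] at e1 e2 e3 hT1 hT2 ⊢
    have he : Real.exp 1 < 2.7182818286 := Real.exp_one_lt_d9
    have h1 : Real.exp 1 ≤ Real.log 16 := by
      have : (16 : ℝ) = 2 ^ 4 := by norm_num
      rw [this, Real.log_pow]
      have := Real.log_two_gt_d9
      push_cast
      linarith
    have hl2 : Real.exp 1 ≤ l := by
      rw [hl]; exact h1.trans (Real.log_le_log (by norm_num) hq16)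
    have hl0 : 0 < l := lt_of_lt_of_le (Real.exp_pos _) hl2
    have hll1 : 1 ≤ Real.log l := by
      rwa [Real.le_log_iff_exp_le hl0]
    have hT3 : 1 ≤ T := hll1.trans hT1
    have hTq : T ≤ q := hT2.trans e1
    obtain ⟨δ, hδ⟩ : ∃ δ : ℝ, δ = (4 * k + 26) * (Real.log l / l) := ⟨_, rfl⟩
    have hδ0 : 0 ≤ δ := by
      rw [hδ]
      have : 0 ≤ Real.log l / l := div_nonneg (by linarith) hl0.le
      positivity
    have hδ1 : δ ≤ 1 := by
      rw [hδ, ← mul_div_assoc, div_le_one hl0]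
      exact e2
    rw [← hδ]
    have h2 := hsecond q hq1 hqN T (by rw [← hl]; exact hT1) hTq hT3 δ hδ0 hδ1
    refine h2.trans ?_
    apply mul_le_mul_of_nonneg_right _ (Nat.cast_nonneg _)
    rw [← hl]
    have h3 : (q : ℝ) ^ (-(δ / 2)) = l ^ (-(2 * k + 13)) := by
      rw [Real.rpow_def_of_pos hq0, Real.rpow_def_of_pos hl0, ← hl, hδ]
      congr 1
      field_simp
      ring
    have h4 : T ^ 2 ≤ l ^ (2 * k) := by
      calc T ^ 2 ≤ (l ^ k) ^ 2 := pow_le_pow_left₀ (by linarith) hT2 2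
        _ = l ^ (2 * k) := by
            rw [← Real.rpow_natCast, ← Real.rpow_mul hl0.le]
            congr 1
            push_cast
            ring
    have h5 : l ^ (2 * k) * l ^ 11 * l ^ (-(2 * k + 13)) = (l ^ 2)⁻¹ := by
      rw [← Real.rpow_natCast l 11, ← Real.rpow_add hl0, ← Real.rpow_add hl0,
        ← Real.rpow_natCast l 2, ← Real.rpow_neg hl0.le]
      congr 1
      push_cast
      ring
    rw [h3]
    have hC0 : 0 ≤ C := by linarith
    calc C * T ^ 2 * l ^ 11 * l ^ (-(2 * k + 13))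
        ≤ C * l ^ (2 * k) * l ^ 11 * l ^ (-(2 * k + 13)) := by gcongr
      _ = C * (l ^ (2 * k) * l ^ 11 * l ^ (-(2 * k + 13))) := by ring
      _ = C * (l ^ 2)⁻¹ := by rw [h5]
      _ ≤ l * (l ^ 2)⁻¹ := by gcongr
      _ = 1 / l := by field_simp

end Pool.Agent.Results.MP_fb225e_nt.CyclotomicZeroDensity
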